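import Pool.Agent.H5.Rotund

set_option autoImplicit false

namespace Pool.Agent.Results.MP_2a41cd_an.RotundTiling

open Pool.Agent.H5.Rotund

/-- An infinite-dimensional real normed space with a rotund norm that is covered by pairwise
disjoint closed balls of positive radius. -/
theorem result :
    ∃ (X : Type) (_ : NormedAddCommGroup X) (_ : NormedSpace ℝ X),
      ¬ FiniteDimensional ℝ X ∧
      (∀ x y : X, ‖x‖ = 1 → ‖y‖ = 1 → x ≠ y → ‖(1 / 2 : ℝ) • (x + y)‖ < 1) ∧
      ∃ 𝒯 : Set (Set X),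
        (∀ B ∈ 𝒯, ∃ (c : X) (r : ℝ), 0 < r ∧ B = Metric.closedBall c r) ∧
        ⋃₀ 𝒯 = Set.univ ∧
        𝒯.PairwiseDisjoint id := by
  obtain ⟨ρ, hρ⟩ := exists_radius
  let c : V → X := fun v => v + Finsupp.single (rep v) (ρ v)
  have hsep : ∀ v v' : V, v (rep v') ≠ 0 → 0 < ρ v → 0 < ρ v' → ρ v + ρ v' < ‖c v - c v'‖ := by
    intro v v' h h1 h2
    have h3 := (hρ v).2.2.2 h1 v' h h2
    have h4 := N_add_le (c v - c v') (-Finsupp.single (rep v) (ρ v))
    have h5 : N (-Finsupp.single (rep v) (ρ v)) = ρ v := by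
      have := N_smul (-1) (Finsupp.single (rep v) (ρ v))
      rw [N_single _ h1.le] at this
      simpa using this
    have h6 : ((v + Finsupp.single (rep v) (ρ v)) - (v' + Finsupp.single (rep v') (ρ v')) +
        -Finsupp.single (rep v) (ρ v) : V) = v - (v' + Finsupp.single (rep v') (ρ v')) := by abel
    have h7 : N (v - (v' + Finsupp.single (rep v') (ρ v'))) ≤ ‖c v - c v'‖ + ρ v := by
      rw [h5] at h4
      rw [← h6]
      exact h4
    linarith
  refine ⟨X, inferInstance, inferInstance, not_finite, fun x y hx hy hxy => ?_,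
    {B | ∃ v, 0 < ρ v ∧ B = Metric.closedBall (c v) (ρ v)}, ?_, ?_, ?_⟩
  · rw [norm_smul]
    by_contra h
    refine hxy (N_rotund hx hy ?_)
    have h1 : ‖x + y‖ = N (x + y : X) := rfl
    rw [h1] at h
    norm_num at h
    exact (by linarith : 2 ≤ N (x + y : X))
  · rintro B ⟨v, hv, rfl⟩
    exact ⟨_, _, hv, rfl⟩
  · refine Set.eq_univ_of_forall fun x => ?_
    rcases eq_or_lt_of_le (hρ x).1 with h | h
    · obtain ⟨v, h1, h2⟩ := (hρ x).2.2.1 h.symm
      exact ⟨_, ⟨v, h1, rfl⟩, by rw [Metric.mem_closedBall, dist_eq_norm]; exact h2⟩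
    · refine ⟨_, ⟨x, h, rfl⟩, ?_⟩
      rw [Metric.mem_closedBall, dist_comm, dist_eq_norm]
      have h1 : c x - x = (Finsupp.single (rep x) (ρ x) : V) := add_sub_cancel_left _ _
      rw [h1]
      exact (N_single _ h.le).le
  · rintro B ⟨v, hv, rfl⟩ B' ⟨v', hv', rfl⟩ hne
    have hvv : v ≠ v' := fun h => hne (by rw [h])
    refine Metric.closedBall_disjoint_closedBall ?_
    rw [dist_eq_norm]
    by_cases h1 : v (rep v') = 0
    · by_cases h2 : v' (rep v) = 0
      · exact N_sep hvv h2 h1 hv (hρ v).2.1 hv'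
      · have := hsep v' v h2 hv' hv
        rw [norm_sub_rev]; linarith
    · exact hsep v v' h1 hv hv'

end Pool.Agent.Results.MP_2a41cd_an.RotundTiling
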